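import Pool.Agent.Y786.UL.Gen

set_option autoImplicit false

/-!
# MP_468ee0_co: complexes whose strongly connected components are joins with a graph, all `r ≥ 1`

For every `r ≥ 1` the inequality of Q1 holds, for all `k`, for every finite simplicial complex `X`
such that the `r`-dimensional faces of each strongly connected component (two `r`-faces being
adjacent if they have `r` common vertices) have at least `r - 1` vertices in common.
-/

namespace Pool.Agent.Results.MP_468ee0_co.CommonFace

/-- The matrix of the boundary map `∂_r` from the faces with `r + 1` vertices to the faces with `r`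
vertices of the complex `X` on the vertices `Fin n` (ordered increasingly): the entry at
`(σ, τ)`, `τ = σ ∪ {v}`, is `(-1)` to the number of vertices of `τ` smaller than `v`. This is the
matrix of the frozen statement `S08485`. -/
def boundary {n : ℕ} (X : Finset (Finset (Fin n))) (r : ℕ) :
    Matrix {σ : Finset (Fin n) // σ ∈ X ∧ σ.card = r}
      {τ : Finset (Fin n) // τ ∈ X ∧ τ.card = r + 1} ℝ :=
  Matrix.of (fun σ τ => if σ.1 ⊆ τ.1 then
    ((-1 : ℝ) ^ (∑ v ∈ τ.1 \ σ.1, (τ.1.filter (fun w => w < v)).card)) else 0)

/-- **Q1 for complexes whose adjacent `r`-faces share a designated set of `r - 1` vertices.** Let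
`X` be a finite simplicial complex (a family of subsets of `Fin n` closed under taking nonempty
subsets) and `r ≥ 1`. Suppose that every `r`-dimensional face `τ` of `X` contains a set `ρ τ` of
`r - 1` vertices such that `ρ τ = ρ τ'` whenever `τ` and `τ'` have `r` common vertices. (Such `ρ`
exist if and only if the `r`-faces of every strongly connected component have at least `r - 1`
common vertices; for `r = 1` this is no restriction.) Then any `k` eigenvalues of the up-Laplacian
`L⁺_{r-1}(X) = ∂_r ∂_rᵀ` sum to at most `f_r(X) + k (k - 1) / 2 + r k`. -/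
theorem result (n : ℕ) (X : Finset (Finset (Fin n)))
    (hX : ∀ s ∈ X, ∀ t : Finset (Fin n), t ⊆ s → t.Nonempty → t ∈ X)
    (r : ℕ) (hr : 1 ≤ r) (ρ : Finset (Fin n) → Finset (Fin n))
    (h1 : ∀ τ ∈ X, τ.card = r + 1 → ρ τ ⊆ τ ∧ (ρ τ).card + 1 = r)
    (h2 : ∀ τ ∈ X, τ.card = r + 1 → ∀ τ' ∈ X, τ'.card = r + 1 → (τ ∩ τ').card = r → ρ τ = ρ τ')
    (S : Finset {σ : Finset (Fin n) // σ ∈ X ∧ σ.card = r}) :
    ∑ i ∈ S, (Matrix.isHermitian_mul_conjTranspose_self (boundary X r)).eigenvalues i ≤
      ((X.filter (fun s => s.card = r + 1)).card : ℝ) + ((S.card.choose 2 : ℕ) : ℝ) +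
        (r : ℝ) * (S.card : ℝ) := by
  have h := Pool.Agent.Y786.UL.bound_gen X hX r hr ρ h1 h2 S
    (Matrix.isHermitian_mul_conjTranspose_self (boundary X r))
  refine h.trans (le_of_eq ?_)
  rw [Nat.cast_choose_two]
  ring

end Pool.Agent.Results.MP_468ee0_co.CommonFace
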