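import Pool.Agent.Y786.UL.One
import Pool.Agent.Helper827.Brou.Spec

set_option autoImplicit false

/-!
# MP_468ee0_co: the case `r = 1` for all simplicial complexes

For every finite simplicial complex `X` the inequality of Q1 holds for `r = 1` and all `k`, in the
stronger two-parameter form: with `λ_1 ≥ λ_2 ≥ …` the eigenvalues of `L⁺_0(X) = ∂_1 ∂_1ᵀ`,
`(λ_1 + … + λ_i) + (λ_1 + … + λ_j) ≤ 2 f_1(X) + i (j + 1)` for all `i ≤ j < f_0(X)`.
-/

namespace Pool.Agent.Results.MP_468ee0_co.EdgeCase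

/-- The matrix of the boundary map `∂_r` from the faces with `r + 1` vertices to the faces with `r`
vertices of the complex `X` on the vertices `Fin n` (ordered increasingly): the entry at
`(σ, τ)`, `τ = σ ∪ {v}`, is `(-1)` to the number of vertices of `τ` smaller than `v`. This is the
matrix of the frozen statement `S08485`. -/
def boundary {n : ℕ} (X : Finset (Finset (Fin n))) (r : ℕ) :
    Matrix {σ : Finset (Fin n) // σ ∈ X ∧ σ.card = r}
      {τ : Finset (Fin n) // τ ∈ X ∧ τ.card = r + 1} ℝ :=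
  Matrix.of (fun σ τ => if σ.1 ⊆ τ.1 then
    ((-1 : ℝ) ^ (∑ v ∈ τ.1 \ σ.1, (τ.1.filter (fun w => w < v)).card)) else 0)

/-- **The case `r = 1` of Q1**, for every finite simplicial complex `X` (a family of subsets of
`Fin n` closed under taking nonempty subsets), `L⁺_0(X) = ∂_1 ∂_1ᵀ`:
(1) any `k` eigenvalues of `L⁺_0(X)` sum to at most `f_1(X) + k (k - 1) / 2 + k`;
(2) if `λ_1 ≥ λ_2 ≥ …` are the eigenvalues of `L⁺_0(X)`, then for all `i ≤ j < f_0(X)`,
`(λ_1 + … + λ_i) + (λ_1 + … + λ_j) ≤ 2 f_1(X) + i (j + 1)`. -/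
theorem result (n : ℕ) (X : Finset (Finset (Fin n)))
    (hX : ∀ s ∈ X, ∀ t : Finset (Fin n), t ⊆ s → t.Nonempty → t ∈ X) :
    (∀ S : Finset {σ : Finset (Fin n) // σ ∈ X ∧ σ.card = 1},
      ∑ i ∈ S, (Matrix.isHermitian_mul_conjTranspose_self (boundary X 1)).eigenvalues i ≤
        ((X.filter (fun s => s.card = 1 + 1)).card : ℝ) + ((S.card.choose 2 : ℕ) : ℝ) +
          (S.card : ℝ)) ∧
    (∀ i j : ℕ, i ≤ j → j < Fintype.card {σ : Finset (Fin n) // σ ∈ X ∧ σ.card = 1} →
      (∑ a : Fin (Fintype.card {σ : Finset (Fin n) // σ ∈ X ∧ σ.card = 1}), if (a : ℕ) < i then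
        (Matrix.isHermitian_mul_conjTranspose_self (boundary X 1)).eigenvalues₀ a else 0) +
      (∑ a : Fin (Fintype.card {σ : Finset (Fin n) // σ ∈ X ∧ σ.card = 1}), if (a : ℕ) < j then
        (Matrix.isHermitian_mul_conjTranspose_self (boundary X 1)).eigenvalues₀ a else 0) ≤
      2 * ((X.filter (fun s => s.card = 1 + 1)).card : ℝ) + (i : ℝ) * ((j : ℝ) + 1)) := by
  classical
  refine ⟨fun S => ?_, fun i j hij hj => ?_⟩
  · have h := Pool.Agent.Y786.UL.bound_one X hX S
      (Matrix.isHermitian_mul_conjTranspose_self (boundary X 1))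
    refine h.trans (le_of_eq ?_)
    rw [Nat.cast_choose_two]
    ring
  · have key : ∀ (M : Matrix {σ : Finset (Fin n) // σ ∈ X ∧ σ.card = 1}
        {σ : Finset (Fin n) // σ ∈ X ∧ σ.card = 1} ℝ) (hM : M.IsHermitian),
        M = (Pool.Agent.Y786.UL.gr X).lapMatrix ℝ →
        (∑ a : Fin (Fintype.card {σ : Finset (Fin n) // σ ∈ X ∧ σ.card = 1}), if (a : ℕ) < i then hM.eigenvalues₀ a else 0) +
          (∑ a : Fin (Fintype.card {σ : Finset (Fin n) // σ ∈ X ∧ σ.card = 1}), if (a : ℕ) < j then hM.eigenvalues₀ a else 0) ≤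
          2 * ((Pool.Agent.Y786.UL.gr X).edgeFinset.card : ℝ) + (i : ℝ) * ((j : ℝ) + 1) := by
      intro M hM h
      subst h
      exact Pool.Agent.Helper827.Brou.twoParam (Pool.Agent.Y786.UL.gr X) i j hij (by omega)
    have h := key _ (Matrix.isHermitian_mul_conjTranspose_self (boundary X 1))
      (Pool.Agent.Y786.UL.up_eq_lap X hX)
    rw [Pool.Agent.Y786.UL.edges_eq X hX] at h
    exact h

end Pool.Agent.Results.MP_468ee0_co.EdgeCase
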